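import Mathlib
import Pool.Agent.UniqueAdd.Iso
import Pool.Agent.UniqueAdd.GroupG
import Pool.Agent.UniqueAdd.GroupH

/-!
# A subdirect product of integers with a second, divisible, addition

Question Q1 of the problem is answered in the negative by one explicit pair: a countable additive
subgroup `G` of the functions from the natural numbers to the integers, closed under pointwise
maxima and minima and with every coordinate map onto the integers, and a second commutative group
operation on the same lattice `G`, with the same zero, for which all translations are monotone and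
which makes `G` a divisible group.
-/

set_option autoImplicit false

namespace Pool.Agent.Results.MP_3dd297_al.DivisibleAddition

open Pool.Agent.UniqueAdd

/-- The embedding of the group of `GroupG` into integer sequences, with the finite lists numbered by
the natural numbers. -/
noncomputable def F : GT →+ (ℕ → ℤ) where
  toFun f := fun n => emb f ((Denumerable.eqv (List ℕ)).symm n)
  map_zero' := by funext n; simp only [map_zero, Pi.zero_apply]
  map_add' f g := by funext n; simp only [map_add, Pi.add_apply]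

theorem F_apply (f : GT) (n : ℕ) : F f n = emb f ((Denumerable.eqv (List ℕ)).symm n) := rfl

theorem F_injective : Function.Injective F := by
  intro f g h
  apply emb_injective
  funext t
  have h1 := congrFun h (Denumerable.eqv (List ℕ) t)
  rw [F_apply, F_apply, Equiv.symm_apply_apply] at h1
  exact h1

theorem F_sup (f g : GT) : F (f ⊔ g) = F f ⊔ F g := by
  funext n
  rw [F_apply, emb_sup]; rfl

theorem F_inf (f g : GT) : F (f ⊓ g) = F f ⊓ F g := by
  funext n
  rw [F_apply, emb_inf]; rfl

theorem F_le_iff (f g : GT) : F f ≤ F g ↔ f ≤ g := by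
  rw [← inf_eq_left, ← F_inf, ← inf_eq_left]
  exact F_injective.eq_iff

/-- dividing by a natural number -/
noncomputable def hdiv (f : HT) (n : ℕ) : HT := ⟨fun m => f.1 m / (n : ℚ), by
  obtain ⟨k, hk⟩ := f.2
  exact ⟨k, fun m m' h => by
    show f.1 m / (n : ℚ) = f.1 m' / (n : ℚ)
    rw [hk m m' h]⟩⟩

theorem nsmul_hdiv (f : HT) (n : ℕ) (hn : 1 ≤ n) : n • hdiv f n = f := by
  apply Subtype.ext
  funext m
  have h : (n • hdiv f n : HT).1 m = (n : ℚ) * (f.1 m / (n : ℚ)) := by
    show (n • (hdiv f n).1) m = _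
    rw [Pi.smul_apply, nsmul_eq_mul]; rfl
  rw [h]
  have : (n : ℚ) ≠ 0 := by positivity
  field_simp

/-- **Theorem.** There are a countable subgroup `G` of the group of integer sequences that is closed
under pointwise maximum and minimum and all of whose coordinate maps are onto the integers, and an
operation `op` on `G` such that: `op` is associative and commutative, has `0` as neutral element and
has inverses (so it is an abelian group operation with the identity of `G`); translations are
monotone for the pointwise order of `G`; for every `n ≥ 1` every element is an `n`-fold `op`-sum of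
one element with itself (so the new group is divisible); no bijection of `G` turns `op` into the
original addition; in particular `op` differs from the original addition. -/
theorem result :
    ∃ G : AddSubgroup (ℕ → ℤ),
      Countable G ∧
      (∀ f ∈ G, ∀ g ∈ G, f ⊔ g ∈ G ∧ f ⊓ g ∈ G) ∧
      (∀ (i : ℕ) (m : ℤ), ∃ f ∈ G, f i = m) ∧
      ∃ op : G → G → G,
        (∀ a b c : G, op (op a b) c = op a (op b c)) ∧
        (∀ a b : G, op a b = op b a) ∧
        (∀ a : G, op 0 a = a) ∧
        (∀ a : G, ∃ b : G, op a b = 0) ∧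
        (∀ a b c : G, a ≤ b → op c a ≤ op c b) ∧
        (∀ n : ℕ, 1 ≤ n → ∀ a : G, ∃ b : G, (op b)^[n] 0 = a) ∧
        (¬ ∃ e : G ≃ G, ∀ x y : G, e (op x y) = e x + e y) ∧
        (∃ x y : G, op x y ≠ x + y) := by
  obtain ⟨Φ, hΦ0, hΦ⟩ := exists_equiv generic_G generic_H
    (fun f g h => Subtype.ext (funext h)) (fun f g h => Subtype.ext (funext h)) (0 : GT) (0 : HT)
  have hle : ∀ f g : GT, f ≤ g ↔ Φ f ≤ Φ g := fun f g => hΦ f g
  -- the range of `F`
  let G : AddSubgroup (ℕ → ℤ) := F.range
  let E : GT ≃ G := Equiv.ofBijective (fun f => (⟨F f, f, rfl⟩ : G))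
    ⟨fun f g h => F_injective (congrArg Subtype.val h), by
      rintro ⟨_, f, rfl⟩
      exact ⟨f, rfl⟩⟩
  have hE0 : E 0 = 0 := Subtype.ext (map_zero F)
  have hEle : ∀ f g : GT, E f ≤ E g ↔ f ≤ g := fun f g => F_le_iff f g
  -- the order isomorphism onto the divisible group
  let Ψ : G ≃ HT := E.symm.trans Φ
  have hΨ0 : Ψ 0 = 0 := by
    show Φ (E.symm 0) = 0
    rw [← hE0, E.symm_apply_apply, hΦ0]
  have hΨle : ∀ x y : G, x ≤ y ↔ Ψ x ≤ Ψ y := by
    intro x y
    show x ≤ y ↔ Φ (E.symm x) ≤ Φ (E.symm y)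
    rw [← hle, ← hEle, E.apply_symm_apply, E.apply_symm_apply]
  have hs0 : Ψ.symm 0 = 0 := by rw [← hΨ0, Ψ.symm_apply_apply]
  let op : G → G → G := fun x y => Ψ.symm (Ψ x + Ψ y)
  have hop : ∀ x y : G, Ψ (op x y) = Ψ x + Ψ y := fun x y => Ψ.apply_symm_apply _
  have hiter : ∀ (b : G) (n : ℕ), Ψ ((op b)^[n] 0) = n • Ψ b := by
    intro b n
    induction n with
    | zero => simp only [Function.iterate_zero, id_eq, zero_smul]; exact hΨ0
    | succ n ih => rw [Function.iterate_succ_apply', hop, ih, succ_nsmul, add_comm]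
  have hdvd : ∀ n : ℕ, 1 ≤ n → ∀ a : G, ∃ b : G, (op b)^[n] 0 = a := by
    intro n hn a
    refine ⟨Ψ.symm (hdiv (Ψ a) n), Ψ.injective ?_⟩
    rw [hiter, Ψ.apply_symm_apply, nsmul_hdiv _ _ hn]
  have hsurj : ∀ (i : ℕ) (m : ℤ), ∃ f ∈ G, f i = m := by
    intro i m
    obtain ⟨f, hf⟩ := emb_surj ((Denumerable.eqv (List ℕ)).symm i) m
    exact ⟨F f, ⟨f, rfl⟩, hf⟩
  have hniso : ¬ ∃ e : G ≃ G, ∀ x y : G, e (op x y) = e x + e y := by
    rintro ⟨e, he⟩
    obtain ⟨f, hfG, hf⟩ := hsurj 0 1
    obtain ⟨b, hb⟩ := hdvd 2 (by norm_num) (e.symm ⟨f, hfG⟩)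
    have h0 : e 0 = 0 := by
      have h := he 0 0
      have h00 : op 0 0 = 0 := Ψ.injective (by rw [hop, hΨ0, add_zero])
      rw [h00] at h
      exact left_eq_add.1 h
    have h1 : (op b)^[2] 0 = op b b := by
      apply Ψ.injective
      rw [hiter, hop, two_nsmul]
    rw [h1] at hb
    have h2 := he b b
    rw [hb, e.apply_symm_apply] at h2
    have h3 := congrFun (congrArg Subtype.val h2) 0
    have h4 : (e b + e b : G).1 0 = (e b).1 0 + (e b).1 0 := rfl
    rw [h4] at h3
    have h5 : (⟨f, hfG⟩ : G).1 0 = 1 := hf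
    rw [h5] at h3
    omega
  refine ⟨G, ?_, ?_, hsurj, op, ?_, ?_, ?_, ?_, ?_, hdvd, hniso, ?_⟩
  · exact E.surjective.countable
  · rintro _ ⟨f, rfl⟩ _ ⟨g, rfl⟩
    exact ⟨⟨f ⊔ g, F_sup f g⟩, ⟨f ⊓ g, F_inf f g⟩⟩
  · intro a b c
    apply Ψ.injective
    rw [hop, hop, hop, hop, add_assoc]
  · intro a b
    apply Ψ.injective
    rw [hop, hop, add_comm]
  · intro a
    apply Ψ.injective
    rw [hop, hΨ0, zero_add]
  · intro a
    refine ⟨Ψ.symm (-Ψ a), Ψ.injective ?_⟩
    rw [hop, Ψ.apply_symm_apply, add_neg_cancel, hΨ0]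
  · intro a b c hab
    rw [hΨle, hop, hop]
    have h1 := (hΨle a b).1 hab
    intro s
    have h2 := h1 s
    show (Ψ c).1 s + (Ψ a).1 s ≤ (Ψ c).1 s + (Ψ b).1 s
    linarith
  · by_contra hcon
    push Not at hcon
    exact hniso ⟨Equiv.refl _, fun x y => hcon x y⟩

end Pool.Agent.Results.MP_3dd297_al.DivisibleAddition
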